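import Pool.Agent.N85.FnoethField

/-! An F-noetherian ring that is not directed F-noetherian.

Let `K` be the field of rational functions over `ℂ` in the variables `X(n,i)`, `n ∈ ℤ`, `i ∈ ℕ`,
let `σ` be the shift `X(n,i) ↦ X(n+1,i)`, `ψ` the map `X(n,i) ↦ X(n,i+1)`, and let `L j` be the
field of all elements fixed by every substitution `X(n,0) ↦ ζ X(n,0)`, `ζ` a primitive
`(j+1)`-st root of unity. The ring consists of the quadruples `(c, a, e, l)` with `c, a ∈ K`,
`e : ℕ → K`, `l j ∈ L j`, with `e j = 0` and `l j = ψ c` for almost all `j`, with the product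
`(c c', c a' + a σ(c'), c e' + e l', l l')`. -/

namespace Pool.Agent.Results.MP_56d54d_al.NotDirected

/-- A ring is noetherian when it is left and right noetherian (the right ideals of `S` are the
left ideals of the opposite ring). -/
def IsNoeth (S : Type*) [Ring S] : Prop := IsNoetherianRing S ∧ IsNoetherianRing Sᵐᵒᵖ

/-- Every finite subset is contained in a noetherian subring. -/
def FNoetherian (R : Type*) [Ring R] : Prop :=
  ∀ A : Finset R, ∃ S : Subring R, (∀ a ∈ A, a ∈ S) ∧ IsNoeth S

/-- One can choose for every finite subset a noetherian subring containing it, monotonically. -/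
def DirectedFNoetherian (R : Type*) [Ring R] : Prop :=
  ∃ f : Finset R → Subring R, (∀ A, ∀ a ∈ A, a ∈ f A) ∧ (∀ A, IsNoeth (f A)) ∧
    ∀ A B, A ⊆ B → f A ≤ f B

/-- There is an F-noetherian ring that is not directed F-noetherian. -/
theorem result : ∃ (R : Type) (_ : Ring R), FNoetherian R ∧ ¬ DirectedFNoetherian R :=
  ⟨Pool.Agent.N85.Fnoeth.R0 Pool.Agent.N85.Fnoeth.dat, inferInstance,
    Pool.Agent.N85.Fnoeth.fnoetherian _, Pool.Agent.N85.Fnoeth.not_directed _⟩

end Pool.Agent.Results.MP_56d54d_al.NotDirected
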